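import Pool.Agent.K1H22.DF.Stm6

/-! Project DF6: the number of edges of the construction. -/

set_option autoImplicit false

namespace Pool.Agent.K1H96.DF6

open Pool.Agent.K1H22.DF Finset

lemma row_le (k v : ℕ) : row k v ≤ k := by
  unfold row
  exact Nat.lt_succ_iff.mp (Nat.mod_lt _ (Nat.succ_pos k))

lemma lab_lt {k : ℕ} (hk : 1 ≤ k) (v : ℕ) : lab k v < k := by
  unfold lab
  split_ifs with h
  · exact h
  · exact Nat.mod_lt _ (by omega)

lemma vtx_ext {k u w : ℕ} (hu : k ≤ u) (hw : k ≤ w) (h1 : cpt k u = cpt k w)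
    (h2 : row k u = row k w) (h3 : lab k u = lab k w) : u = w := by
  unfold cpt at h1
  unfold row at h2
  unfold lab at h3
  rw [if_neg (by omega), if_neg (by omega)] at h3
  have e1 : (u - k) / k = (w - k) / k := by
    rw [← Nat.div_add_mod ((u - k) / k) (k + 1), ← Nat.div_add_mod ((w - k) / k) (k + 1), h1, h2]
  have e2 : u - k = w - k := by
    rw [← Nat.div_add_mod (u - k) k, ← Nat.div_add_mod (w - k) k, e1, h3]
  omega

lemma adj_iff {k n : ℕ} (u v : Fin n) : (gU6 k n).Adj u v ↔ u ≠ v ∧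
    (((u.1 < k ∧ v.1 < k) ∨ hadj k n u.1 v.1 ∨ cadj k n u.1 v.1) ∨
      ((v.1 < k ∧ u.1 < k) ∨ hadj k n v.1 u.1 ∨ cadj k n v.1 u.1)) := by
  unfold gU6
  rw [SimpleGraph.fromRel_adj]

open Classical in
lemma deg_le {k n : ℕ} (hk : 1 ≤ k) (v : Fin n) (hv : k ≤ v.1) : (gU6 k n).degree v ≤ k := by
  rw [← SimpleGraph.card_neighborFinset_eq_degree]
  have h4 : ((gU6 k n).neighborFinset v).card ≤ (range k).card := by
    refine card_le_card_of_injOn (fun u => if u.1 < k then u.1 else
      if row k v.1 = k then row k u.1 else lab k u.1) ?_ ?_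
    · intro u hu
      rw [mem_coe, SimpleGraph.mem_neighborFinset, adj_iff] at hu
      rw [mem_coe, mem_range]
      have h1 := lab_lt hk u.1
      have h2 := row_le k u.1
      unfold hadj cadj at hu
      dsimp only
      split_ifs with h3 h4
      · exact h3
      · omega
      · exact h1
    · intro u hu w hw huw
      rw [mem_coe, SimpleGraph.mem_neighborFinset, adj_iff] at hu hw
      have hext : k ≤ u.1 → k ≤ w.1 → cpt k u.1 = cpt k w.1 → row k u.1 = row k w.1 →
        lab k u.1 = lab k w.1 → u.1 = w.1 := vtx_ext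
      have h1 := lab_lt hk u.1
      have h2 := lab_lt hk w.1
      have h3 := lab_lt hk v.1
      have h4 := row_le k u.1
      have h5 := row_le k w.1
      have h6 := row_le k v.1
      apply Fin.ext
      obtain ⟨_, hu⟩ := hu
      obtain ⟨_, hw⟩ := hw
      unfold hadj cadj at hu hw
      dsimp only at huw
      split_ifs at huw with a1 a2 a3 a4 a5 a6 a7 <;> omega
  rwa [card_range] at h4

open Classical in
lemma deg_hub {k n : ℕ} (hk : 1 ≤ k) (hn : k ≤ n) (u : Fin n) (hu : u.1 < k) :
    (gU6 k n).degree u ≤ k + 2 * ((n - k) / (k * (k + 1))) + k * (k + 1) := by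
  rw [← SimpleGraph.card_neighborFinset_eq_degree]
  obtain ⟨m, hm⟩ : ∃ m, m = (n - k) / (k * (k + 1)) := ⟨_, rfl⟩
  have hpos : 0 < k * (k + 1) := Nat.mul_pos hk (Nat.succ_pos k)
  have hlt : n - k < (m + 1) * (k * (k + 1)) := by
    rw [hm, ← Nat.div_lt_iff_lt_mul hpos]
    exact Nat.lt_succ_self _
  have hexp : (m + 1) * (k * (k + 1)) = m * (k * (k + 1)) + k * (k + 1) := by ring
  have hc : ∀ v : ℕ, m ≤ cpt k v → m * (k * (k + 1)) ≤ v - k := by
    intro v h
    unfold cpt at h
    rw [Nat.div_div_eq_div_mul] at h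
    exact (Nat.le_div_iff_mul_le hpos).mp h
  rw [← hm]
  have h4 : ((gU6 k n).neighborFinset u).card ≤ (range (k + 2 * m + k * (k + 1))).card := by
    refine card_le_card_of_injOn (fun v => if v.1 < k then v.1 else
      if cpt k v.1 < m then k + 2 * cpt k v.1 + (if row k v.1 = k then 1 else 0) else
        k + 2 * m + (v.1 - k - m * (k * (k + 1)))) ?_ ?_
    · intro v hv
      rw [mem_coe, SimpleGraph.mem_neighborFinset, adj_iff] at hv
      rw [mem_coe, mem_range]
      have h1 := hc v.1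
      have h2 := v.2
      dsimp only
      generalize m * (k * (k + 1)) = M at *
      generalize k * (k + 1) = M' at *
      split_ifs <;> omega
    · intro v hv w hw hvw
      rw [mem_coe, SimpleGraph.mem_neighborFinset, adj_iff] at hv hw
      have hext : k ≤ v.1 → k ≤ w.1 → cpt k v.1 = cpt k w.1 → row k v.1 = row k w.1 →
        lab k v.1 = lab k w.1 → v.1 = w.1 := vtx_ext
      have h1 := lab_lt hk v.1
      have h2 := lab_lt hk w.1
      have h4 := row_le k v.1
      have h5 := row_le k w.1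
      have h6 := hc v.1
      have h7 := hc w.1
      apply Fin.ext
      obtain ⟨_, hv⟩ := hv
      obtain ⟨_, hw⟩ := hw
      unfold hadj cadj at hv hw
      rw [← hm] at hv hw
      dsimp only at hvw
      generalize m * (k * (k + 1)) = M at *
      generalize k * (k + 1) = M' at *
      split_ifs at hvw <;> omega
  rwa [card_range] at h4

open Classical in
lemma two_e {k n : ℕ} (hk : 1 ≤ k) (hn : k ≤ n) :
    2 * (gU6 k n).edgeSet.ncard ≤
      k * (k + 2 * ((n - k) / (k * (k + 1))) + k * (k + 1)) + n * k := by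
  have h1 := (gU6 k n).sum_degrees_eq_twice_card_edges
  have h2 : (gU6 k n).edgeSet.ncard = (gU6 k n).edgeFinset.card := by
    rw [← SimpleGraph.coe_edgeFinset, Set.ncard_coe_finset]
  rw [h2, ← h1, ← sum_filter_add_sum_filter_not univ (fun v : Fin n => v.1 < k)]
  refine Nat.add_le_add ?_ ?_
  · calc ∑ v ∈ univ.filter (fun v : Fin n => v.1 < k), (gU6 k n).degree v
        ≤ ∑ _v ∈ univ.filter (fun v : Fin n => v.1 < k),
            (k + 2 * ((n - k) / (k * (k + 1))) + k * (k + 1)) :=
          sum_le_sum fun v hv => deg_hub hk hn v (mem_filter.mp hv).2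
      _ = _ := by
          rw [sum_const, smul_eq_mul, Fin.card_filter_val_lt, min_eq_right hn]
  · calc ∑ v ∈ univ.filter (fun v : Fin n => ¬ v.1 < k), (gU6 k n).degree v
        ≤ ∑ _v ∈ univ.filter (fun v : Fin n => ¬ v.1 < k), k :=
          sum_le_sum fun v hv => deg_le hk v (not_lt.mp (mem_filter.mp hv).2)
      _ = (univ.filter (fun v : Fin n => ¬ v.1 < k)).card * k := by
          rw [sum_const, smul_eq_mul]
      _ ≤ n * k := by
          apply Nat.mul_le_mul_right
          exact (card_filter_le _ _).trans (by simp)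

theorem t_U6B : S_U6B := by
  intro k hk
  refine ⟨(k : ℝ) * (k + k * (k + 1)) / 2, fun n hn => ?_⟩
  have hkn : k ≤ n := by omega
  obtain ⟨m, hm⟩ : ∃ m, m = (n - k) / (k * (k + 1)) := ⟨_, rfl⟩
  have h1 := two_e hk hkn
  rw [← hm] at h1
  have h2 : m * (k * (k + 1)) ≤ n := by
    rw [hm]
    exact (Nat.div_mul_le_self _ _).trans (Nat.sub_le _ _)
  have h1r : (2 : ℝ) * ((gU6 k n).edgeSet.ncard : ℝ) ≤
      k * (k + 2 * m + k * (k + 1)) + n * k := by exact_mod_cast h1
  have h2r : (m : ℝ) * (k * (k + 1)) ≤ n := by exact_mod_cast h2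
  have hk1 : (0 : ℝ) < (k : ℝ) + 1 := by positivity
  have h3 : (k : ℝ) * m ≤ 1 / (k + 1) * n := by
    rw [one_div, inv_mul_eq_div, le_div_iff₀ hk1]
    calc (k : ℝ) * m * (k + 1) = m * (k * (k + 1)) := by ring
      _ ≤ n := h2r
  have h4 : ((k : ℝ) / 2 + 1 / (k + 1)) * n = k / 2 * n + 1 / (k + 1) * n := by ring
  rw [h4]
  nlinarith

end Pool.Agent.K1H96.DF6
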